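import Pool.Agent.Helper68.DS.Goals

set_option autoImplicit false

/-!
# BASE (MP_52cd29_ag): the base cases `D(1,1)`, `D(2,1)`, `D(3,1)`
-/

namespace Pool.Agent.Helper65.DS

open Pool.Agent.Helper68.DS MvPolynomial

/-- A monomial of degree `k + 1` is a variable times a monomial of degree `k`. -/
theorem monomial_split {n k : ℕ} (d : Fin n →₀ ℕ) (hd : d.degree = k + 1) :
    ∃ (a : Fin n) (d' : Fin n →₀ ℕ), d'.degree = k ∧
      monomial d (1 : ℂ) = X a * monomial d' 1 := by
  have hne : d ≠ 0 := by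
    rintro rfl
    simp at hd
  obtain ⟨a, ha⟩ := Finsupp.ne_iff.mp hne
  have ha1 : 1 ≤ d a := Nat.one_le_iff_ne_zero.mpr ha
  have hle : Finsupp.single a 1 ≤ d := by
    intro b
    by_cases hb : b = a
    · subst hb; simpa using ha1
    · simp [Ne.symm hb]
  have hsum : Finsupp.single a 1 + (d - Finsupp.single a 1) = d := add_tsub_cancel_of_le hle
  refine ⟨a, d - Finsupp.single a 1, ?_, ?_⟩
  · have h := congrArg Finsupp.degree hsum
    rw [map_add, Finsupp.degree_single, hd] at h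
    omega
  · rw [X, monomial_mul, one_mul, hsum]

/-- A monomial of degree `k` is a product of `k` variables. -/
theorem monomial_eq_prod {n : ℕ} : ∀ (k : ℕ) (d : Fin n →₀ ℕ), d.degree = k →
    ∃ v : Fin k → Fin n, monomial d (1 : ℂ) = ∏ j, X (v j) := by
  intro k
  induction k with
  | zero =>
    intro d hd
    have h0 : d = 0 := (Finsupp.degree_eq_zero_iff d).mp hd
    exact ⟨Fin.elim0, by rw [h0]; simp⟩
  | succ k ih =>
    intro d hd
    obtain ⟨a, d', hd', h⟩ := monomial_split d hd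
    obtain ⟨v, hv⟩ := ih d' hd'
    refine ⟨Fin.cons a v, ?_⟩
    rw [h, hv, Fin.prod_univ_succ]
    simp

/-- If all the products of `k` variables lie in `T`, then so do all the forms of degree `k`. -/
theorem HS_le_of_prod {n k : ℕ} (T : Submodule ℂ (MvPolynomial (Fin n) ℂ))
    (h : ∀ v : Fin k → Fin n, ∏ j, (X (v j) : MvPolynomial (Fin n) ℂ) ∈ T) : HS n k ≤ T := by
  intro f hf
  have hf' : f.IsHomogeneous k := hf
  rw [f.as_sum]
  refine T.sum_mem fun d hd => ?_
  have hdk : d.degree = k := by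
    by_contra hne
    exact (mem_support_iff.mp hd) (hf'.coeff_eq_zero hne)
  obtain ⟨v, hv⟩ := monomial_eq_prod k d hdk
  have e : monomial d (coeff d f) = (coeff d f) • ∏ j, (X (v j) : MvPolynomial (Fin n) ℂ) := by
    rw [← hv, smul_monomial, smul_eq_mul, mul_one]
  rw [e]
  exact T.smul_mem _ (h v)

theorem mem_TT {k : ℕ} (M : Matrix (Fin k) (Fin k) (MvPolynomial (Fin 4) ℂ)) (j : Fin 4)
    (a b : Fin k) {f : MvPolynomial (Fin 4) ℂ} (h : f = M.adjugate a b) : X j * f ∈ TT M := by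
  subst h
  exact Submodule.subset_span ⟨(j, a, b), rfl⟩

theorem neg_mem_iff' {T : Submodule ℂ (MvPolynomial (Fin 4) ℂ)} {f g : MvPolynomial (Fin 4) ℂ}
    (h : g ∈ T) (e : f = -g) : f ∈ T := by
  rw [e]; exact T.neg_mem h

theorem eq_mem {T : Submodule ℂ (MvPolynomial (Fin 4) ℂ)} {f g : MvPolynomial (Fin 4) ℂ}
    (h : g ∈ T) (e : f = g) : f ∈ T := by
  rw [e]; exact h

theorem DD_one_of {k : ℕ} (M : Matrix (Fin k) (Fin k) (MvPolynomial (Fin 4) ℂ)) (hM : IsLin M)
    (h : ∀ v : Fin k → Fin 4, ∏ j, (X (v j) : MvPolynomial (Fin 4) ℂ) ∈ TT M) : DD k 1 :=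
  ⟨fun _ => M, fun _ => hM, (HS_le_of_prod _ h).trans (le_iSup (fun _ : Fin 1 => TT M) 0)⟩

theorem DD11 : DD 1 1 := by
  refine DD_one_of (fun _ _ => X 0) (fun _ _ => isHomogeneous_X _ _) fun v => ?_
  rw [Fin.prod_univ_one]
  have h := mem_TT (fun _ _ : Fin 1 => (X 0 : MvPolynomial (Fin 4) ℂ)) (v 0) 0 0 (f := 1)
    (by rw [Matrix.adjugate_subsingleton]; rfl)
  simpa using h

/-- The matrix for `k = 2`. -/
noncomputable def M2 : Matrix (Fin 2) (Fin 2) (MvPolynomial (Fin 4) ℂ) := !![X 0, X 1; X 2, X 3]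

theorem DD21 : DD 2 1 := by
  refine DD_one_of M2 ?_ fun v => ?_
  · intro a b
    fin_cases a <;> fin_cases b <;> exact isHomogeneous_X _ _
  · rw [Fin.prod_univ_two]
    have h00 := mem_TT M2 (v 0) 0 0 (f := X 3) (by rw [M2, Matrix.adjugate_fin_two_of]; rfl)
    have h01 := mem_TT M2 (v 0) 0 1 (f := -X 1) (by rw [M2, Matrix.adjugate_fin_two_of]; rfl)
    have h10 := mem_TT M2 (v 0) 1 0 (f := -X 2) (by rw [M2, Matrix.adjugate_fin_two_of]; rfl)
    have h11 := mem_TT M2 (v 0) 1 1 (f := X 0) (by rw [M2, Matrix.adjugate_fin_two_of]; rfl)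
    generalize v 1 = c
    fin_cases c
    · exact h11
    · exact neg_mem_iff' h01 (by simp)
    · exact neg_mem_iff' h10 (by simp)
    · exact h00

/-- The matrix for `k = 3`. -/
noncomputable def M3 : Matrix (Fin 3) (Fin 3) (MvPolynomial (Fin 4) ℂ) :=
  !![X 2, X 3, X 1; X 1, X 0, 0; X 0, X 2, X 3]

theorem DD31 : DD 3 1 := by
  refine DD_one_of M3 ?_ fun v => ?_
  · intro a b
    fin_cases a <;> fin_cases b <;>
      first | exact isHomogeneous_X _ _ | exact isHomogeneous_zero _ _ _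
  · have key : ∀ (j : Fin 4),
        X j * (X 0 * X 3) ∈ TT M3 ∧ X j * (X 1 * X 3) ∈ TT M3 ∧
        X j * (X 1 * X 2 - X 0 * X 0) ∈ TT M3 ∧ X j * (X 1 * X 2 - X 3 * X 3) ∈ TT M3 ∧
        X j * (X 2 * X 3) ∈ TT M3 ∧ X j * (X 2 * X 2) ∈ TT M3 ∧
        X j * (X 0 * X 1) ∈ TT M3 ∧ X j * (X 1 * X 1) ∈ TT M3 ∧ X j * (X 0 * X 2) ∈ TT M3 := by
      intro j
      have h00 := mem_TT M3 j 0 0 (f := X 0 * X 3) (by
        rw [M3, Matrix.adjugate_fin_three_of]; simp)
      have h10 := mem_TT M3 j 1 0 (f := -(X 1 * X 3)) (by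
        rw [M3, Matrix.adjugate_fin_three_of]; simp)
      have h20 := mem_TT M3 j 2 0 (f := X 1 * X 2 - X 0 * X 0) (by
        rw [M3, Matrix.adjugate_fin_three_of]; simp)
      have h01 := mem_TT M3 j 0 1 (f := X 1 * X 2 - X 3 * X 3) (by
        rw [M3, Matrix.adjugate_fin_three_of]; simp; ring)
      have h11 := mem_TT M3 j 1 1 (f := X 2 * X 3 - X 0 * X 1) (by
        rw [M3, Matrix.adjugate_fin_three_of]; simp; ring)
      have h21 := mem_TT M3 j 2 1 (f := X 0 * X 3 - X 2 * X 2) (by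
        rw [M3, Matrix.adjugate_fin_three_of]; simp; ring)
      have h02 := mem_TT M3 j 0 2 (f := -(X 0 * X 1)) (by
        rw [M3, Matrix.adjugate_fin_three_of]; simp; try ring)
      have h12 := mem_TT M3 j 1 2 (f := X 1 * X 1) (by
        rw [M3, Matrix.adjugate_fin_three_of]; simp)
      have h22 := mem_TT M3 j 2 2 (f := X 0 * X 2 - X 1 * X 3) (by
        rw [M3, Matrix.adjugate_fin_three_of]; simp; ring)
      refine ⟨h00, neg_mem_iff' h10 (by ring), h20, h01, ?_, ?_, neg_mem_iff' h02 (by ring), h12,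
        ?_⟩
      · have e : (X j * (X 2 * X 3) : MvPolynomial (Fin 4) ℂ) =
            X j * (X 2 * X 3 - X 0 * X 1) - X j * -(X 0 * X 1) := by ring
        rw [e]
        exact (TT M3).sub_mem h11 h02
      · have e : (X j * (X 2 * X 2) : MvPolynomial (Fin 4) ℂ) =
            X j * (X 0 * X 3) - X j * (X 0 * X 3 - X 2 * X 2) := by ring
        rw [e]
        exact (TT M3).sub_mem h00 h21
      · have e : (X j * (X 0 * X 2) : MvPolynomial (Fin 4) ℂ) =
            X j * (X 0 * X 2 - X 1 * X 3) - X j * -(X 1 * X 3) := by ring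
        rw [e]
        exact (TT M3).sub_mem h22 h10
    have s12 : ∀ j : Fin 4, X j * (X 1 * X 2) ∈ TT M3 := by
      intro j
      fin_cases j
      · exact eq_mem (key 2).2.2.2.2.2.2.1 (by simp; ring)
      · exact eq_mem (key 2).2.2.2.2.2.2.2.1 (by simp; ring)
      · exact eq_mem (key 1).2.2.2.2.2.1 (by simp; ring)
      · exact eq_mem (key 1).2.2.2.2.1 (by simp; ring)
    have s00 : ∀ j : Fin 4, X j * (X 0 * X 0) ∈ TT M3 := fun j =>
      eq_mem ((TT M3).sub_mem (s12 j) (key j).2.2.1) (by ring)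
    have s33 : ∀ j : Fin 4, X j * (X 3 * X 3) ∈ TT M3 := fun j =>
      eq_mem ((TT M3).sub_mem (s12 j) (key j).2.2.2.1) (by ring)
    have all : ∀ j a b : Fin 4, X j * (X a * X b) ∈ TT M3 := by
      intro j a b
      obtain ⟨h03, h13, -, -, h23, h22, h01, h11, h02⟩ := key j
      have h12 := s12 j
      have h00 := s00 j
      have h33 := s33 j
      fin_cases a <;> fin_cases b
      · exact h00
      · exact h01
      · exact h02
      · exact h03
      · exact eq_mem h01 (by simp; ring)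
      · exact h11
      · exact h12
      · exact h13
      · exact eq_mem h02 (by simp; ring)
      · exact eq_mem h12 (by simp; ring)
      · exact h22
      · exact h23
      · exact eq_mem h03 (by simp; ring)
      · exact eq_mem h13 (by simp; ring)
      · exact eq_mem h23 (by simp; ring)
      · exact h33
    rw [Fin.prod_univ_three, mul_assoc]
    exact all _ _ _

/-- **BASE**. -/
theorem BASE : BASE_stmt := ⟨DD11, DD21, DD31⟩

end Pool.Agent.Helper65.DS
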